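import Pool.Agent.Helper89.TQ.Spec

set_option autoImplicit false

namespace Pool.Agent.Helper63.TQ.BRIDGE

open Finset Pool.Agent.R6.Trade Pool.Agent.Helper89.TQ

variable {N : Type} [DecidableEq N]

lemma vec_insert (τ : N → Fin 3) {S : Finset N} {u : N} (hu : u ∉ S) (k : Fin 3) :
    vec τ (insert u S) k = vec τ S k + if τ u = k then 1 else 0 := by
  unfold vec
  rw [filter_insert]
  split_ifs with h
  · rw [card_insert_of_notMem]
    simp [hu]
  · rfl

lemma vec_erase (τ : N → Fin 3) {S : Finset N} {v : N} (hv : v ∈ S) (k : Fin 3) :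
    vec τ (S.erase v) k + (if τ v = k then 1 else 0) = vec τ S k := by
  rw [← vec_insert τ (notMem_erase v S), insert_erase hv]

variable [Fintype N]

lemma vec_le (τ : N → Fin 3) (S : Finset N) (k : Fin 3) : vec τ S k ≤ nn τ k :=
  card_le_card (filter_subset_filter _ (subset_univ S))

lemma vec_lt (τ : N → Fin 3) {S : Finset N} {u : N} (hu : u ∉ S) : vec τ S (τ u) < nn τ (τ u) := by
  have h := vec_le τ (insert u S) (τ u)
  rw [vec_insert τ hu, if_pos rfl] at h
  omega

lemma exists_not (τ : N → Fin 3) {S : Finset N} {i : Fin 3} (h : vec τ S i < nn τ i) :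
    ∃ u, u ∉ S ∧ τ u = i := by
  by_contra hc
  push Not at hc
  have : nn τ i ≤ vec τ S i := by
    refine card_le_card fun v hv => ?_
    have hv' := (mem_filter.1 hv).2
    refine mem_filter.2 ⟨?_, hv'⟩
    by_contra hs
    exact hc v hs hv'
  omega

omit [Fintype N] in
lemma exists_mem (τ : N → Fin 3) {S : Finset N} {i : Fin 3} (h : 0 < vec τ S i) :
    ∃ u, u ∈ S ∧ τ u = i := by
  obtain ⟨u, hu⟩ := card_pos.1 h
  exact ⟨u, (mem_filter.1 hu).1, (mem_filter.1 hu).2⟩

/-- replace a voter of type `j` by one of type `i ≤ j` -/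
lemma swap {W : Finset N → Prop} {τ : N → Fin 3} (hA : ∀ u v, AtLeast W u v ↔ τ u ≤ τ v)
    {S : Finset N} (hS : W S) {i j : Fin 3} (hij : i ≤ j) (hi : vec τ S i < nn τ i)
    (hj : 0 < vec τ S j) :
    ∃ T, W T ∧ ∀ k, vec τ T k + (if j = k then 1 else 0) = vec τ S k + if i = k then 1 else 0 := by
  obtain ⟨u, hu, rfl⟩ := exists_not τ hi
  obtain ⟨v, hv, rfl⟩ := exists_mem τ hj
  refine ⟨insert u (S.erase v), ?_, fun k => ?_⟩
  · refine (hA u v).2 hij (S.erase v) (fun h => hu (mem_of_mem_erase h)) (notMem_erase v S) ?_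
    rwa [insert_erase hv]
  · rw [vec_insert τ (fun h => hu (mem_of_mem_erase h)), ← vec_erase τ hv k]
    ring

lemma add {W : Finset N → Prop} (hmono : ∀ S T : Finset N, S ⊆ T → W S → W T) {τ : N → Fin 3}
    {S : Finset N} (hS : W S) {i : Fin 3} (hi : vec τ S i < nn τ i) :
    ∃ T, W T ∧ ∀ k, vec τ T k = vec τ S k + if i = k then 1 else 0 := by
  obtain ⟨u, hu, rfl⟩ := exists_not τ hi
  exact ⟨insert u S, hmono _ _ (subset_insert u S) hS, fun k => vec_insert τ hu k⟩

/-- the sum of the partial sums -/
def ms (x : Fin 3 → ℕ) : ℕ := 3 * x 0 + 2 * x 1 + x 2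

theorem shift {W : Finset N → Prop} (hmono : ∀ S T : Finset N, S ⊆ T → W S → W T) {τ : N → Fin 3}
    (hA : ∀ u v, AtLeast W u v ↔ τ u ≤ τ v) (T : Finset N) : ∀ (D : ℕ) (S : Finset N),
    ms (vec τ T) ≤ ms (vec τ S) + D → GE (vec τ T) (vec τ S) → W S → W T := by
  intro D
  induction D with
  | zero =>
    rintro S hD ⟨h0, h1, h2⟩ hS
    unfold ms at hD
    have e : vec τ S = vec τ T := by
      funext k
      fin_cases k
      · change vec τ S 0 = vec τ T 0
        omega
      · change vec τ S 1 = vec τ T 1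
        omega
      · change vec τ S 2 = vec τ T 2
        omega
    exact win_of_vec_eq hmono τ (fun a b hab => (hA a b).2 hab.le) _ S T rfl e hS
  | succ D ih =>
    rintro S hD ⟨h0, h1, h2⟩ hS
    unfold ms at hD
    have n0 := vec_le τ T 0
    have n1 := vec_le τ T 1
    have n2 := vec_le τ T 2
    by_cases c0 : vec τ S 0 < vec τ T 0
    · by_cases c1 : vec τ S 0 + vec τ S 1 = vec τ T 0 + vec τ T 1
      · obtain ⟨S', hS', hv⟩ := swap hA hS (i := 0) (j := 1) (by decide) (by omega) (by omega)
        have v0 := hv 0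
        have v1 := hv 1
        have v2 := hv 2
        simp at v0 v1 v2
        refine ih S' ?_ ⟨?_, ?_, ?_⟩ hS'
        · unfold ms
          omega
        all_goals omega
      · by_cases c2 : vec τ S 0 + vec τ S 1 + vec τ S 2 = vec τ T 0 + vec τ T 1 + vec τ T 2
        · obtain ⟨S', hS', hv⟩ := swap hA hS (i := 0) (j := 2) (by decide) (by omega) (by omega)
          have v0 := hv 0
          have v1 := hv 1
          have v2 := hv 2
          simp at v0 v1 v2
          refine ih S' ?_ ⟨?_, ?_, ?_⟩ hS'
          · unfold ms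
            omega
          all_goals omega
        · obtain ⟨S', hS', hv⟩ := add hmono hS (i := 0) (τ := τ) (by omega)
          have v0 := hv 0
          have v1 := hv 1
          have v2 := hv 2
          simp at v0 v1 v2
          refine ih S' ?_ ⟨?_, ?_, ?_⟩ hS'
          · unfold ms
            omega
          all_goals omega
    · by_cases c1 : vec τ S 0 + vec τ S 1 < vec τ T 0 + vec τ T 1
      · by_cases c2 : vec τ S 0 + vec τ S 1 + vec τ S 2 = vec τ T 0 + vec τ T 1 + vec τ T 2
        · obtain ⟨S', hS', hv⟩ := swap hA hS (i := 1) (j := 2) (by decide) (by omega) (by omega)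
          have v0 := hv 0
          have v1 := hv 1
          have v2 := hv 2
          simp at v0 v1 v2
          refine ih S' ?_ ⟨?_, ?_, ?_⟩ hS'
          · unfold ms
            omega
          all_goals omega
        · obtain ⟨S', hS', hv⟩ := add hmono hS (i := 1) (τ := τ) (by omega)
          have v0 := hv 0
          have v1 := hv 1
          have v2 := hv 2
          simp at v0 v1 v2
          refine ih S' ?_ ⟨?_, ?_, ?_⟩ hS'
          · unfold ms
            omega
          all_goals omega
      · by_cases c2 : vec τ S 0 + vec τ S 1 + vec τ S 2 < vec τ T 0 + vec τ T 1 + vec τ T 2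
        · obtain ⟨S', hS', hv⟩ := add hmono hS (i := 2) (τ := τ) (by omega)
          have v0 := hv 0
          have v1 := hv 1
          have v2 := hv 2
          simp at v0 v1 v2
          refine ih S' ?_ ⟨?_, ?_, ?_⟩ hS'
          · unfold ms
            omega
          all_goals omega
        · refine ih S ?_ ⟨h0, h1, h2⟩ hS
          unfold ms
          omega

lemma ge_refl (x : Fin 3 → ℕ) : GE x x := ⟨le_rfl, le_rfl, le_rfl⟩

lemma ge_trans {x y z : Fin 3 → ℕ} (h : GE x y) (h' : GE y z) : GE x z :=
  ⟨h'.1.trans h.1, h'.2.1.trans h.2.1, h'.2.2.trans h.2.2⟩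

omit [Fintype N] in
theorem above {W : Finset N → Prop} {τ : N → Fin 3} {a b : Fin 3 → ℕ}
    (hM : ∀ v, MinWin W τ v ↔ v = a ∨ v = b) : ∀ (D : ℕ) (S : Finset N), ms (vec τ S) ≤ D → W S →
      Win a b (vec τ S) := by
  intro D
  induction D with
  | zero =>
    intro S hD hS
    have h : MinWin W τ (vec τ S) := by
      refine ⟨⟨S, hS, rfl⟩, ?_⟩
      rintro T _ ⟨h0, h1, h2⟩
      unfold ms at hD
      funext k
      fin_cases k
      · change vec τ T 0 = vec τ S 0
        omega
      · change vec τ T 1 = vec τ S 1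
        omega
      · change vec τ T 2 = vec τ S 2
        omega
    rcases (hM _).1 h with h | h
    · exact Or.inl (h ▸ ge_refl _)
    · exact Or.inr (h ▸ ge_refl _)
  | succ D ih =>
    intro S hD hS
    by_cases h : MinWin W τ (vec τ S)
    · rcases (hM _).1 h with h | h
      · exact Or.inl (h ▸ ge_refl _)
      · exact Or.inr (h ▸ ge_refl _)
    · have h' : ∃ T, W T ∧ GE (vec τ S) (vec τ T) ∧ vec τ T ≠ vec τ S := by
        by_contra hc
        push Not at hc
        exact h ⟨⟨S, hS, rfl⟩, fun T hT hg => hc T hT hg⟩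
      obtain ⟨T, hT, hg, hne⟩ := h'
      have hlt : ms (vec τ T) < ms (vec τ S) := by
        obtain ⟨h0, h1, h2⟩ := hg
        by_contra hc
        apply hne
        unfold ms at hc
        funext k
        fin_cases k
        · change vec τ T 0 = vec τ S 0
          omega
        · change vec τ T 1 = vec τ S 1
          omega
        · change vec τ T 2 = vec τ S 2
          omega
      rcases ih T (by omega) hT with h1 | h1
      · exact Or.inl (ge_trans hg h1)
      · exact Or.inr (ge_trans hg h1)

theorem main : S_BRIDGE := by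
  intro N _ _ W τ a b hW hτ hA hab hM
  obtain ⟨-, -, hmono⟩ := hW
  obtain ⟨⟨Sa, hSa, hva⟩, hmina⟩ := (hM a).2 (Or.inl rfl)
  obtain ⟨⟨Sb, hSb, hvb⟩, hminb⟩ := (hM b).2 (Or.inr rfl)
  have hwin : ∀ S, W S ↔ Win a b (vec τ S) := by
    intro S
    constructor
    · exact fun hS => above hM _ S le_rfl hS
    · rintro (h | h)
      · rw [← hva] at h
        exact shift hmono hA S _ Sa (Nat.le_add_left _ _) h hSa
      · rw [← hvb] at h
        exact shift hmono hA S _ Sb (Nat.le_add_left _ _) h hSb
  refine ⟨fun i => hva ▸ vec_le τ Sa i, fun i => hvb ▸ vec_le τ Sb i, fun h => ?_, fun h => ?_,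
    ?_, ?_, hwin⟩
  · have h1 := hmina Sb hSb (by rwa [hvb])
    exact hab (by rw [← h1, hvb])
  · have h1 := hminb Sa hSa (by rwa [hva])
    exact hab (by rw [← h1, hva])
  · obtain ⟨u, hu⟩ := hτ 0
    obtain ⟨v, hv⟩ := hτ 1
    have h1 : ¬ AtLeast W v u := by
      rw [hA, hu, hv]
      decide
    unfold AtLeast at h1
    push Not at h1
    obtain ⟨S, hvS, huS, hw, hnw⟩ := h1
    have hlt := vec_lt τ hvS
    rw [hv] at hlt
    rw [hwin] at hw hnw
    unfold Win at hw hnw
    push Not at hnw
    obtain ⟨hna, hnb⟩ := hnw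
    unfold GE at hw hna hnb
    simp only [vec_insert τ huS, vec_insert τ hvS, hu, hv] at hw hna hnb
    simp at hw hna hnb
    rcases hw with hw | hw
    · left
      by_cases c : a 0 ≤ vec τ S 0
      · have := hna c
        omega
      · omega
    · right
      by_cases c : b 0 ≤ vec τ S 0
      · have := hnb c
        omega
      · omega
  · obtain ⟨u, hu⟩ := hτ 1
    obtain ⟨v, hv⟩ := hτ 2
    have h1 : ¬ AtLeast W v u := by
      rw [hA, hu, hv]
      decide
    unfold AtLeast at h1
    push Not at h1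
    obtain ⟨S, hvS, huS, hw, hnw⟩ := h1
    have hlt := vec_lt τ hvS
    rw [hv] at hlt
    rw [hwin] at hw hnw
    unfold Win at hw hnw
    push Not at hnw
    obtain ⟨hna, hnb⟩ := hnw
    unfold GE at hw hna hnb
    simp only [vec_insert τ huS, vec_insert τ hvS, hu, hv] at hw hna hnb
    simp at hw hna hnb
    rcases hw with hw | hw
    · left
      by_cases c : a 0 + a 1 ≤ vec τ S 0 + vec τ S 1
      · have := hna (by omega) c
        omega
      · omega
    · right
      by_cases c : b 0 + b 1 ≤ vec τ S 0 + vec τ S 1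
      · have := hnb (by omega) c
        omega
      · omega

end Pool.Agent.Helper63.TQ.BRIDGE
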